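import Pool.Agent.helper89.PU.Spec1

/-! Row pv:SPF (MP_2e0e07_nt): the constant by compactness. -/

set_option autoImplicit false

namespace Pool.Agent.PV

open Matrix Polynomial Pool.Agent.GO Pool.Agent.AR Pool.Agent.RG Pool.Agent.HZ Pool.Agent.DS
  Pool.Agent.AX Pool.Agent.UM Pool.Agent.PU MeasureTheory NumberField

theorem SPF_d3_map {F Ω : Type*} [Field F] [Field Ω] (j : F →+* Ω) (A B C : Matrix (Fin 2) (Fin 2) F) :
    j (d3 A B C) = d3 (A.map j) (B.map j) (C.map j) := by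
  simp only [d3, Matrix.det_fin_three, Matrix.map_apply, Matrix.of_apply, Matrix.cons_val_zero, Matrix.cons_val_one,
    Matrix.cons_val, map_sub, map_add, map_mul]

theorem SPF_d3_aff {F : Type*} [CommRing F] (x s t u : F) (A B C : Matrix (Fin 2) (Fin 2) F) :
    d3 (x • A + s • 1) (x • B + t • 1) (x • C + u • 1) = x ^ 3 * d3 A B C := by
  simp only [d3, Matrix.det_fin_three, Matrix.of_apply, Matrix.cons_val_zero, Matrix.cons_val_one,
    Matrix.cons_val, Matrix.add_apply, Matrix.smul_apply, smul_eq_mul, Matrix.one_apply_eq,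
    Matrix.one_apply_ne (by decide : (0 : Fin 2) ≠ 1), Matrix.one_apply_ne (by decide : (1 : Fin 2) ≠ 0)]
  ring

theorem SPF_d3_em {F : Type*} [Field F] (u v w : Fin 3 → F) :
    d3 (em u) (em v) (em w) = -2 * (Matrix.of ![u, v, w] : Matrix (Fin 3) (Fin 3) F).det := by
  simp only [d3, Pool.Agent.AR.em, Matrix.det_fin_three, Matrix.of_apply, Matrix.cons_val_zero, Matrix.cons_val_one,
    Matrix.cons_val]
  ring

/-- three elements of a family spanning the space with nonzero determinant -/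
theorem SPF_three {Ω G : Type*} [Field Ω] (f : G → (Fin 3 → Ω)) (hf : Submodule.span Ω (Set.range f) = ⊤) :
    ∃ a b c : G, (Matrix.of ![f a, f b, f c] : Matrix (Fin 3) (Fin 3) Ω).det ≠ 0 := by
  obtain ⟨t, ht, htspan, hli⟩ := exists_linearIndependent Ω (Set.range f)
  rw [hf] at htspan
  let bs : Module.Basis t Ω (Fin 3 → Ω) := Module.Basis.mk hli (by rw [Subtype.range_coe, htspan])
  have hbs : ∀ i : t, bs i = (i : Fin 3 → Ω) := fun i => Module.Basis.mk_apply hli _ i
  let e : Fin 3 ≃ t := (bs.indexEquiv (Pi.basisFun Ω (Fin 3))).symm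
  have h1 : ∀ i : Fin 3, ∃ g, f g = (e i : Fin 3 → Ω) := fun i => ht (e i).2
  choose g hg using h1
  refine ⟨g 0, g 1, g 2, ?_⟩
  have h2 : LinearIndependent Ω fun i : Fin 3 => (e i : Fin 3 → Ω) := hli.comp e e.injective
  have h3 : (Matrix.of ![f (g 0), f (g 1), f (g 2)] : Matrix (Fin 3) (Fin 3) Ω) =
      Matrix.of fun i : Fin 3 => (e i : Fin 3 → Ω) := by
    ext i j
    fin_cases i
    · exact congrFun (hg 0) j
    · exact congrFun (hg 1) j
    · exact congrFun (hg 2) j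
  rw [h3]
  have h4 : IsUnit (Matrix.of fun i : Fin 3 => (e i : Fin 3 → Ω)) :=
    Matrix.linearIndependent_rows_iff_isUnit.1 h2
  exact ((Matrix.isUnit_iff_isUnit_det _).1 h4).ne_zero

theorem SPF_one {Γ F Ω : Type} [Group Γ] [Field F] [Field Ω] [IsAlgClosed Ω] [CharZero Ω]
    (j : F →+* Ω) (R : Γ →* Matrix (Fin 2) (Fin 2) F) (hSI : SI (bc j R))
    (Y : Matrix (Fin 2) (Fin 2) F) (hY : ¬ ∃ c : F, Y = c • 1) :
    ∃ a b c : Γ, d3 (R a * Y * R a⁻¹) (R b * Y * R b⁻¹) (R c * Y * R c⁻¹) ≠ 0 := by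
  obtain ⟨s, hs⟩ : ∃ s : Ω, s = (Y.map j).trace / 2 := ⟨_, rfl⟩
  obtain ⟨Y0, hY0⟩ : ∃ Y0 : Matrix (Fin 2) (Fin 2) Ω, Y0 = Y.map j - s • 1 := ⟨_, rfl⟩
  have htr : Y0.trace = 0 := by
    rw [hY0, Matrix.trace_sub, Matrix.trace_smul, Matrix.trace_one, Fintype.card_fin, hs, smul_eq_mul]
    have h2 : ((2 : ℕ) : Ω) = 2 := by norm_num
    rw [h2, div_mul_cancel₀ _ (two_ne_zero : (2 : Ω) ≠ 0), sub_self]
  have hYj : Y.map j = em (co Y0) + s • 1 := by
    rw [em_co htr, hY0]
    abel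
  have hx0 : co Y0 ≠ 0 := by
    intro h0
    apply hY
    have h1 : ∀ a b, j (Y a b) = (s • (1 : Matrix (Fin 2) (Fin 2) Ω)) a b := by
      intro a b
      have h2 : Y.map j = s • 1 := by
        rw [hYj, h0]
        have h3 : em (0 : Fin 3 → Ω) = 0 := by
          ext a b
          fin_cases a <;> fin_cases b <;> simp [Pool.Agent.AR.em]
        rw [h3, zero_add]
      rw [← h2, Matrix.map_apply]
    have h01 := h1 0 1
    have h10 := h1 1 0
    have h00 := h1 0 0
    have h11 := h1 1 1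
    simp only [Matrix.smul_apply, Matrix.one_apply_eq, Matrix.one_apply_ne (by decide : (0 : Fin 2) ≠ 1),
      Matrix.one_apply_ne (by decide : (1 : Fin 2) ≠ 0), smul_eq_mul, mul_zero, mul_one] at h01 h10 h00 h11
    have q01 : Y 0 1 = 0 := (map_eq_zero j).1 h01
    have q10 : Y 1 0 = 0 := (map_eq_zero j).1 h10
    have q00 : Y 0 0 = Y 1 1 := j.injective (h00.trans h11.symm)
    refine ⟨Y 1 1, ?_⟩
    ext a b
    fin_cases a <;> fin_cases b
    · simpa using q00
    · simpa using q01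
    · simpa using q10
    · simp
  have hirr := ad0_irred (bc j R) hSI
  have hst : ∀ g, ∀ u ∈ Submodule.span Ω (Set.range fun g => ad0 (bc j R) g *ᵥ co Y0),
      ad0 (bc j R) g *ᵥ u ∈ Submodule.span Ω (Set.range fun g => ad0 (bc j R) g *ᵥ co Y0) := by
    intro g u hu
    induction hu using Submodule.span_induction with
    | mem u h =>
      obtain ⟨g', rfl⟩ := h
      refine Submodule.subset_span ⟨g * g', ?_⟩
      change ad0 (bc j R) (g * g') *ᵥ co Y0 = ad0 (bc j R) g *ᵥ (ad0 (bc j R) g' *ᵥ co Y0)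
      rw [map_mul, ← Matrix.mulVec_mulVec]
    | zero =>
      rw [Matrix.mulVec_zero]
      exact Submodule.zero_mem _
    | add u v _ _ h1 h2 =>
      rw [Matrix.mulVec_add]
      exact Submodule.add_mem _ h1 h2
    | smul c u _ h =>
      rw [Matrix.mulVec_smul]
      exact Submodule.smul_mem _ _ h
  have hspan : Submodule.span Ω (Set.range fun g => ad0 (bc j R) g *ᵥ co Y0) = ⊤ := by
    rcases hirr.2 _ hst with h | h
    · exfalso
      apply hx0
      have h1 : ad0 (bc j R) 1 *ᵥ co Y0 ∈ Submodule.span Ω (Set.range fun g => ad0 (bc j R) g *ᵥ co Y0) :=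
        Submodule.subset_span ⟨1, rfl⟩
      rw [h, Submodule.mem_bot, map_one, Matrix.one_mulVec] at h1
      exact h1
    · exact h
  obtain ⟨a, b, c, habc⟩ := SPF_three _ hspan
  refine ⟨a, b, c, fun h0 => habc ?_⟩
  have hconj : ∀ g, (R g * Y * R g⁻¹).map j = (1 : Ω) • em (ad0 (bc j R) g *ᵥ co Y0) + s • 1 := by
    intro g
    have h1 : (R g * Y * R g⁻¹).map j = bc j R g * Y.map j * bc j R g⁻¹ := by
      rw [Matrix.map_mul, Matrix.map_mul]
      rfl
    have h2 : bc j R g * bc j R g⁻¹ = 1 := by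
      rw [← map_mul, mul_inv_cancel, map_one]
    rw [h1, hYj, em_ad0, one_smul, Matrix.mul_add, Matrix.add_mul, Matrix.mul_smul, Matrix.mul_one, Matrix.smul_mul, h2]
  have h1 := congrArg j h0
  rw [map_zero, SPF_d3_map, hconj, hconj, hconj, SPF_d3_aff, SPF_d3_em, one_pow, one_mul] at h1
  rcases mul_eq_zero.1 h1 with h2 | h2
  · exfalso
    exact two_ne_zero (neg_eq_zero.1 h2)
  · exact h2

/-- the matrix with the coordinates `y` -/
def SPF_mat {F : Type*} [Zero F] (y : Fin 3 → F) : Matrix (Fin 2) (Fin 2) F := !![y 2, y 0; y 1, 0]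

theorem SPF : SPF_stmt := by
  intro p _ Γ F Ω _ _ _ _ _ _ _ _ R hSI
  have : ProperSpace F := FiniteDimensional.proper ℚ_[p] F
  -- the function
  obtain ⟨f, hf⟩ : ∃ f : Γ → Γ → Γ → (Fin 3 → F) → ℝ, ∀ a b c y, f a b c y =
      ‖d3 (R a * SPF_mat y * R a⁻¹) (R b * SPF_mat y * R b⁻¹) (R c * SPF_mat y * R c⁻¹)‖ := ⟨_, fun _ _ _ _ => rfl⟩
  have hmat : ∀ g, Continuous fun y : Fin 3 → F => R g * SPF_mat y * R g⁻¹ := by
    intro g
    have h1 : Continuous fun y : Fin 3 → F => SPF_mat y := by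
      refine continuous_matrix fun i j => ?_
      fin_cases i <;> fin_cases j
      · exact continuous_apply 2
      · exact continuous_apply 0
      · exact continuous_apply 1
      · exact continuous_const
    exact (continuous_const.matrix_mul h1).matrix_mul continuous_const
  have hcont : ∀ a b c, Continuous (f a b c) := by
    intro a b c
    have h1 : f a b c = fun y => ‖d3 (R a * SPF_mat y * R a⁻¹) (R b * SPF_mat y * R b⁻¹) (R c * SPF_mat y * R c⁻¹)‖ :=
      funext fun y => hf a b c y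
    rw [h1]
    refine Continuous.norm ?_
    unfold d3
    refine Continuous.matrix_det ?_
    have e : ∀ g i j, Continuous fun y : Fin 3 → F => (R g * SPF_mat y * R g⁻¹) i j := fun g i j =>
      (hmat g).matrix_elem i j
    refine continuous_matrix fun i j => ?_
    fin_cases i <;> fin_cases j
    · exact e a 0 1
    · exact e a 1 0
    · exact (e a 0 0).sub (e a 1 1)
    · exact e b 0 1
    · exact e b 1 0
    · exact (e b 0 0).sub (e b 1 1)
    · exact e c 0 1
    · exact e c 1 0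
    · exact (e c 0 0).sub (e c 1 1)
  -- the compact set
  have hnu : ∀ y : Fin 3 → F, nu (SPF_mat y) = max (max ‖y 0‖ ‖y 1‖) ‖y 2‖ := by
    intro y
    have h1 : SPF_mat y 0 1 = y 0 := rfl
    have h2 : SPF_mat y 1 0 = y 1 := rfl
    have h3 : SPF_mat y 0 0 - SPF_mat y 1 1 = y 2 := sub_zero _
    unfold nu
    rw [h1, h2, h3]
  obtain ⟨K, hK⟩ : ∃ K : Set (Fin 3 → F), K = {y | nu (SPF_mat y) = 1} := ⟨_, rfl⟩
  have hKc : IsCompact K := by
    refine (isCompact_closedBall (0 : Fin 3 → F) 1).of_isClosed_subset ?_ ?_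
    · rw [hK]
      have h1 : {y : Fin 3 → F | nu (SPF_mat y) = 1} = {y | max (max ‖y 0‖ ‖y 1‖) ‖y 2‖ = 1} := by
        ext y
        rw [Set.mem_ofPred_eq, Set.mem_ofPred_eq, hnu]
      rw [h1]
      exact isClosed_eq (((continuous_apply 0).norm.max (continuous_apply 1).norm).max (continuous_apply 2).norm)
        continuous_const
    · intro y hy
      rw [hK, Set.mem_ofPred_eq, hnu] at hy
      rw [mem_closedBall_zero_iff, pi_norm_le_iff_of_nonneg zero_le_one]
      intro i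
      rw [← hy]
      fin_cases i
      · exact (le_max_left _ _).trans (le_max_left _ _)
      · exact (le_max_right _ _).trans (le_max_left _ _)
      · exact le_max_right _ _
  have hpos : ∀ y ∈ K, ∃ a b c : Γ, 0 < f a b c y := by
    intro y hy
    rw [hK, Set.mem_ofPred_eq] at hy
    obtain ⟨a, b, c, h⟩ := SPF_one (algebraMap F Ω) R hSI (SPF_mat y) (by
      rintro ⟨s, hs⟩
      rw [hs] at hy
      simp [nu] at hy)
    refine ⟨a, b, c, ?_⟩
    rw [hf]
    exact norm_pos_iff.2 h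
  obtain ⟨T, hT⟩ := hKc.elim_finite_subcover (fun i : (Γ × Γ × Γ) × ℕ => {y | 1 / ((i.2 : ℝ) + 1) < f i.1.1 i.1.2.1 i.1.2.2 y})
    (fun i => isOpen_lt continuous_const (hcont _ _ _)) (by
      intro y hy
      obtain ⟨a, b, c, h⟩ := hpos y hy
      obtain ⟨n, hn⟩ := exists_nat_one_div_lt h
      exact Set.mem_iUnion.2 ⟨((a, b, c), n), hn⟩)
  obtain ⟨N, hN⟩ : ∃ N : ℕ, N = T.sup fun i => i.2 := ⟨_, rfl⟩
  have hN0 : (0 : ℝ) < (N : ℝ) + 1 := by positivity
  refine ⟨1 / ((N : ℝ) + 1), by positivity, ?_, fun h => ?_⟩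
  · rw [div_le_one hN0]
    have : (0 : ℝ) ≤ N := Nat.cast_nonneg N
    linarith
  · obtain ⟨x, hx⟩ : ∃ x : F, nu (R h) = ‖x‖ := by
      unfold nu
      rcases max_choice (max ‖R h 0 1‖ ‖R h 1 0‖) ‖R h 0 0 - R h 1 1‖ with h1 | h1
      · rcases max_choice ‖R h 0 1‖ ‖R h 1 0‖ with h2 | h2
        · exact ⟨_, h1.trans h2⟩
        · exact ⟨_, h1.trans h2⟩
      · exact ⟨_, h1⟩
    by_cases hx0 : x = 0
    · refine ⟨1, 1, 1, ?_⟩
      rw [hx, hx0, norm_zero]
      have : (1 : ℝ) / ((N : ℝ) + 1) * 0 ^ 3 = 0 := by norm_num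
      rw [this]
      exact norm_nonneg _
    · obtain ⟨y, hy⟩ : ∃ y : Fin 3 → F, y = ![x⁻¹ * R h 0 1, x⁻¹ * R h 1 0, x⁻¹ * (R h 0 0 - R h 1 1)] := ⟨_, rfl⟩
      have hR : R h = x • SPF_mat y + R h 1 1 • 1 := by
        have hy0 : y 0 = x⁻¹ * R h 0 1 := by rw [hy]; rfl
        have hy1 : y 1 = x⁻¹ * R h 1 0 := by rw [hy]; rfl
        have hy2 : y 2 = x⁻¹ * (R h 0 0 - R h 1 1) := by rw [hy]; rfl
        ext i j
        fin_cases i <;> fin_cases j
        · change R h 0 0 = x * y 2 + R h 1 1 * (1 : Matrix (Fin 2) (Fin 2) F) 0 0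
          rw [hy2, Matrix.one_apply_eq, mul_inv_cancel_left₀ hx0]
          ring
        · change R h 0 1 = x * y 0 + R h 1 1 * (1 : Matrix (Fin 2) (Fin 2) F) 0 1
          rw [hy0, Matrix.one_apply_ne (by decide), mul_inv_cancel_left₀ hx0]
          ring
        · change R h 1 0 = x * y 1 + R h 1 1 * (1 : Matrix (Fin 2) (Fin 2) F) 1 0
          rw [hy1, Matrix.one_apply_ne (by decide), mul_inv_cancel_left₀ hx0]
          ring
        · change R h 1 1 = x * 0 + R h 1 1 * (1 : Matrix (Fin 2) (Fin 2) F) 1 1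
          rw [Matrix.one_apply_eq]
          ring
      have hyK : y ∈ K := by
        rw [hK, Set.mem_ofPred_eq, hnu]
        have hy0 : ‖y 0‖ = ‖x‖⁻¹ * ‖R h 0 1‖ := by rw [hy, ← norm_inv, ← norm_mul]; rfl
        have hy1 : ‖y 1‖ = ‖x‖⁻¹ * ‖R h 1 0‖ := by rw [hy, ← norm_inv, ← norm_mul]; rfl
        have hy2 : ‖y 2‖ = ‖x‖⁻¹ * ‖R h 0 0 - R h 1 1‖ := by rw [hy, ← norm_inv, ← norm_mul]; rfl
        have hx1 : 0 ≤ ‖x‖⁻¹ := inv_nonneg.2 (norm_nonneg x)
        rw [hy0, hy1, hy2, ← mul_max_of_nonneg _ _ hx1, ← mul_max_of_nonneg _ _ hx1]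
        have h1 : max (max ‖R h 0 1‖ ‖R h 1 0‖) ‖R h 0 0 - R h 1 1‖ = ‖x‖ := hx
        rw [h1, inv_mul_cancel₀ (norm_ne_zero_iff.2 hx0)]
      have hyT := hT hyK
      simp only [Set.mem_iUnion] at hyT
      obtain ⟨⟨⟨a, b, c⟩, n⟩, hi, hlt⟩ := hyT
      refine ⟨a, b, c, ?_⟩
      have hlt' : 1 / ((n : ℝ) + 1) < f a b c y := hlt
      have hnN : n ≤ N := by
        rw [hN]
        exact Finset.le_sup (f := fun i : (Γ × Γ × Γ) × ℕ => i.2) hi
      have hle : 1 / ((N : ℝ) + 1) ≤ f a b c y := by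
        refine le_trans ?_ hlt'.le
        refine one_div_le_one_div_of_le (by positivity) ?_
        have : (n : ℝ) ≤ N := by exact_mod_cast hnN
        linarith
      have hconj : ∀ g, R (g * h * g⁻¹) = x • (R g * SPF_mat y * R g⁻¹) + R h 1 1 • 1 := by
        intro g
        have h2 : R g * R g⁻¹ = 1 := by
          rw [← map_mul, mul_inv_cancel, map_one]
        rw [map_mul, map_mul]
        conv_lhs => rw [hR]
        rw [Matrix.mul_add, Matrix.add_mul, Matrix.mul_smul, Matrix.smul_mul, Matrix.mul_smul, Matrix.mul_one,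
          Matrix.smul_mul, h2]
      rw [hconj, hconj, hconj, SPF_d3_aff, norm_mul, norm_pow, ← hf, hx, mul_comm]
      exact mul_le_mul_of_nonneg_left hle (pow_nonneg (norm_nonneg x) 3)

end Pool.Agent.PV
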